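import Pool.Agent.helper19.AR.Defs2

/-! Module PDs (the spine) of the AR project. -/

set_option autoImplicit false

namespace Pool.Agent.helper19.AR

theorem PDs_mem_segm {α : Type} [DecidableEq α] (r : ℕ) (v : ℕ → ℕ → α) (j q : ℕ) (x : α) :
    x ∈ segm r v j q ↔ ∃ j' i', j ≤ j' ∧ j' < q ∧ i' < r ∧ v j' i' = x := by
  unfold segm
  simp only [Finset.mem_image, Finset.mem_product, Finset.mem_Ico, Finset.mem_range, Prod.exists]
  constructor
  · rintro ⟨a, b, ⟨⟨h1, h2⟩, h3⟩, h4⟩
    exact ⟨a, b, h1, h2, h3, h4⟩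
  · rintro ⟨a, b, h1, h2, h3, h4⟩
    exact ⟨a, b, ⟨⟨h1, h2⟩, h3⟩, h4⟩

theorem PDs_path {α β : Type} [DecidableEq α] [DecidableEq β] (r M k : ℕ) (hr : 2 ≤ r)
    (hkM : k ≤ M) (S : Sys α β) (v : ℕ → ℕ → α) (c : ℕ → ℕ → β)
    (N : ℕ → ℕ → Finset α) (hL : Lay r M S v c N) :
    ∀ d t i, i < r → r - 1 - i = d → t + d + 1 ≤ k →
    ∃ W : Finset α, W.card ≤ d ∧ (v t i ∈ W ∨ i = r - 1) ∧
      ∀ x ∈ W, ∃ j' i', j' < k ∧ i' < r ∧ x = v j' i' ∧
        ∃ w ∈ N j' i', w ∈ W ∨ (∃ j'' < k, w = v j'' (r - 1)) := by
  intro d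
  induction d using Nat.strong_induction_on with
  | _ d ih =>
    intro t i hi hd ht
    rcases Nat.eq_zero_or_pos d with h0 | hpos
    · exact ⟨∅, by simp, Or.inr (by omega), by simp⟩
    · have htM : t < M := by omega
      by_cases hcase : v t (r - 1) ∈ N t i ∨ v (t + 1) (r - 1) ∈ N t i
      · refine ⟨{v t i}, by rw [Finset.card_singleton]; omega, Or.inl (Finset.mem_singleton_self _), ?_⟩
        intro x hx
        rw [Finset.mem_singleton] at hx
        refine ⟨t, i, by omega, hi, hx, ?_⟩
        rcases hcase with h | h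
        · exact ⟨_, h, Or.inr ⟨t, by omega, rfl⟩⟩
        · exact ⟨_, h, Or.inr ⟨t + 1, by omega, rfl⟩⟩
      · push Not at hcase
        have hex : ∃ i' < r, i < i' ∧ v (t + 1) i' ∈ N t i := by
          by_contra hno
          push Not at hno
          have hsub : N t i ⊆ (Finset.Ioo i (r - 1)).image (v t) ∪
              (Finset.range (i + 1)).image (v (t + 1)) := by
            intro w hw
            rcases hL.N_sub t htM i hi w hw with ⟨i', hi', hii', rfl⟩ | ⟨i', hi', rfl⟩
            · rw [Finset.mem_union]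
              left
              have : i' ≠ r - 1 := by
                rintro rfl; exact hcase.1 hw
              exact Finset.mem_image_of_mem _ (Finset.mem_Ioo.mpr ⟨hii', by omega⟩)
            · rw [Finset.mem_union]
              right
              have : ¬ i < i' := fun h => hno i' hi' h hw
              exact Finset.mem_image_of_mem _ (Finset.mem_range.mpr (by omega))
          have h1 := Finset.card_le_card hsub
          have h2 := Finset.card_union_le ((Finset.Ioo i (r - 1)).image (v t))
            ((Finset.range (i + 1)).image (v (t + 1)))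
          have h3 := Finset.card_image_le (s := Finset.Ioo i (r - 1)) (f := v t)
          have h4 := Finset.card_image_le (s := Finset.range (i + 1)) (f := v (t + 1))
          rw [Nat.card_Ioo] at h3
          rw [Finset.card_range] at h4
          have h5 := hL.N_card t htM i hi
          omega
        obtain ⟨i', hi', hii', hmem⟩ := hex
        obtain ⟨W', hWc, hWm, hW⟩ := ih (r - 1 - i') (by omega) (t + 1) i' hi' rfl (by omega)
        refine ⟨insert (v t i) W', ?_, Or.inl (Finset.mem_insert_self _ _), ?_⟩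
        · have := Finset.card_insert_le (v t i) W'
          omega
        · intro x hx
          rw [Finset.mem_insert] at hx
          rcases hx with rfl | hx
          · refine ⟨t, i, by omega, hi, rfl, _, hmem, ?_⟩
            rcases hWm with h | h
            · exact Or.inl (Finset.mem_insert_of_mem h)
            · exact Or.inr ⟨t + 1, by omega, by rw [h]⟩
          · obtain ⟨j', i'', a, b, e, w, hw, hw'⟩ := hW x hx
            refine ⟨j', i'', a, b, e, w, hw, ?_⟩
            rcases hw' with h | h
            · exact Or.inl (Finset.mem_insert_of_mem h)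
            · exact Or.inr h

/-- module PDs: the spine -/
theorem PDs {α β : Type} [DecidableEq α] [DecidableEq β] (r M k : ℕ) (hr : 2 ≤ r)
    (hk : r ≤ k) (hkM : k ≤ M) (S : Sys α β) (v : ℕ → ℕ → α) (c : ℕ → ℕ → β)
    (N : ℕ → ℕ → Finset α) (hL : Lay r M S v c N) (A : Finset ℕ) (hA : A ⊆ Finset.range r) :
    ∃ W : Finset α, W ⊆ segm r v 0 k ∧ (∀ i ∈ A, v 0 i ∈ W) ∧ W.card ≤ r * (r - 1) + k ∧
      ∀ j' i', j' < k → i' < r → v j' i' ∈ W → v j' i' ≠ v (k - 1) (r - 1) →
        ∃ w ∈ N j' i', w ∈ W := by
  classical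
  have hP : ∀ i : ℕ, ∃ W : Finset α, i < r → (W.card ≤ r - 1 - i ∧ (v 0 i ∈ W ∨ i = r - 1) ∧
      ∀ x ∈ W, ∃ j' i', j' < k ∧ i' < r ∧ x = v j' i' ∧
        ∃ w ∈ N j' i', w ∈ W ∨ (∃ j'' < k, w = v j'' (r - 1))) := by
    intro i
    by_cases hi : i < r
    · obtain ⟨W, h⟩ := PDs_path r M k hr hkM S v c N hL (r - 1 - i) 0 i hi rfl (by omega)
      exact ⟨W, fun _ => h⟩
    · exact ⟨∅, fun h => absurd h hi⟩
  choose P hP using hP
  set Sp : Finset α := (Finset.range k).image (fun j => v j (r - 1)) with hSp
  have hr1 : r - 1 < r := by omega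
  have hSpmem : ∀ j < k, v j (r - 1) ∈ Sp := fun j hj =>
    Finset.mem_image.mpr ⟨j, Finset.mem_range.mpr hj, rfl⟩
  refine ⟨Sp ∪ A.biUnion P, ?_, ?_, ?_, ?_⟩
  · intro x hx
    rw [PDs_mem_segm]
    rw [Finset.mem_union] at hx
    rcases hx with hx | hx
    · obtain ⟨j, hj, rfl⟩ := Finset.mem_image.mp hx
      exact ⟨j, r - 1, Nat.zero_le _, Finset.mem_range.mp hj, hr1, rfl⟩
    · obtain ⟨i, hi, hx⟩ := Finset.mem_biUnion.mp hx
      obtain ⟨j', i', a, b, e, _⟩ := (hP i (Finset.mem_range.mp (hA hi))).2.2 x hx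
      exact ⟨j', i', Nat.zero_le _, a, b, e.symm⟩
  · intro i hi
    rw [Finset.mem_union]
    rcases (hP i (Finset.mem_range.mp (hA hi))).2.1 with h | h
    · exact Or.inr (Finset.mem_biUnion.mpr ⟨i, hi, h⟩)
    · left; rw [h]; exact hSpmem 0 (by omega)
  · have h1 : Sp.card ≤ k := by
      have := Finset.card_image_le (s := Finset.range k) (f := fun j => v j (r - 1))
      rwa [Finset.card_range] at this
    have h2 : (A.biUnion P).card ≤ A.card * (r - 1) := by
      apply Finset.card_biUnion_le_card_mul
      intro i hi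
      have := (hP i (Finset.mem_range.mp (hA hi))).1
      omega
    have h3 : A.card ≤ r := by
      have := Finset.card_le_card hA
      rwa [Finset.card_range] at this
    have h4 := Finset.card_union_le Sp (A.biUnion P)
    have h5 := Nat.mul_le_mul_right (r - 1) h3
    omega
  · intro j' i' hj' hi' hmem hne
    rw [Finset.mem_union] at hmem
    by_cases hsp : i' = r - 1
    · subst hsp
      have hj1 : j' + 1 < k := by
        by_contra hcon
        have : j' = k - 1 := by omega
        subst this
        exact hne rfl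
      refine ⟨v (j' + 1) (r - 1), ?_, ?_⟩
      · have hsub : N j' (r - 1) ⊆ (Finset.range r).image (v (j' + 1)) := by
          intro w hw
          rcases hL.N_sub j' (by omega) (r - 1) hr1 w hw with ⟨i'', h1, h2, _⟩ | ⟨i'', h1, rfl⟩
          · omega
          · exact Finset.mem_image_of_mem _ (Finset.mem_range.mpr h1)
        have heq : N j' (r - 1) = (Finset.range r).image (v (j' + 1)) := by
          apply Finset.eq_of_subset_of_card_le hsub
          rw [hL.N_card j' (by omega) (r - 1) hr1]
          have := Finset.card_image_le (s := Finset.range r) (f := v (j' + 1))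
          rwa [Finset.card_range] at this
        rw [heq]
        exact Finset.mem_image_of_mem _ (Finset.mem_range.mpr hr1)
      · rw [Finset.mem_union]; left; exact hSpmem _ hj1
    · rcases hmem with hmem | hmem
      · exfalso
        obtain ⟨j, hj, he⟩ := Finset.mem_image.mp hmem
        have := hL.v_inj j (by have := Finset.mem_range.mp hj; omega) (r - 1) hr1 j' (by omega) i'
          hi' he
        exact hsp this.2.symm
      · obtain ⟨i, hi, hx⟩ := Finset.mem_biUnion.mp hmem
        obtain ⟨j'', i'', a, b, e, w, hw, hw'⟩ :=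
          (hP i (Finset.mem_range.mp (hA hi))).2.2 _ hx
        obtain ⟨e1, e2⟩ := hL.v_inj j' (by omega) i' hi' j'' (by omega) i'' b e
        subst e1; subst e2
        refine ⟨w, hw, ?_⟩
        rw [Finset.mem_union]
        rcases hw' with h | ⟨j3, h3, rfl⟩
        · exact Or.inr (Finset.mem_biUnion.mpr ⟨i, hi, h⟩)
        · exact Or.inl (hSpmem _ h3)

end Pool.Agent.helper19.AR
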