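import Pool.Agent.helper19.AR.Defs2

/-! Module ELa (the cut system) of the AR project. -/

set_option autoImplicit false

namespace Pool.Agent.helper19.AR

/-- the index map of `cutu` -/
def ELa_sig (r N m : ℕ) (j : ℕ) : ℕ := if j < N - r * m then j else j + r * m

theorem ELa_cutu {α : Type} (r N m : ℕ) (u : ℕ → α) (j : ℕ) :
    cutu r N m u j = u (ELa_sig r N m j) := by
  unfold cutu ELa_sig
  split_ifs <;> rfl

theorem ELa_sig_inj (r N m : ℕ) (i j : ℕ) (h : ELa_sig r N m i = ELa_sig r N m j) : i = j := by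
  unfold ELa_sig at h
  split_ifs at h <;> omega

theorem ELa_sig_lt (r N m : ℕ) (hN : r + r * m ≤ N) (j : ℕ) (hj : j < N - r * m + r) :
    ELa_sig r N m j < N + r := by
  unfold ELa_sig
  split_ifs <;> omega

theorem ELa_sig_not (r N m : ℕ) (hN : r + r * m ≤ N) (j : ℕ) :
    ELa_sig r N m j < N - r * m ∨ N ≤ ELa_sig r N m j := by
  unfold ELa_sig
  split_ifs <;> omega

theorem ELa_cutu_inj {α β : Type} (r N m : ℕ) (hN : r + r * m ≤ N) (S : Sys α β) (u : ℕ → α)
    (c : ℕ → β) (hP : Perf r N S u c) (i j : ℕ) (hi : i < N - r * m + r) (hj : j < N - r * m + r)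
    (h : cutu r N m u i = cutu r N m u j) : i = j := by
  rw [ELa_cutu, ELa_cutu] at h
  exact ELa_sig_inj r N m i j (hP.u_inj _ (ELa_sig_lt r N m hN i hi) _ (ELa_sig_lt r N m hN j hj) h)

theorem ELa_cutu_lt {α : Type} (r N m : ℕ) (u : ℕ → α) (j : ℕ) (hj : j < N - r * m) :
    cutu r N m u j = u j := by
  unfold cutu
  rw [if_pos hj]

/-- module ELa: the cut system -/
theorem ELa {α β : Type} [DecidableEq α] [DecidableEq β] (r N m : ℕ) (hr : 2 ≤ r)
    (hN : r + r * m ≤ N) (S : Sys α β) (u : ℕ → α) (c : ℕ → β) (hG : Good r S)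
    (hP : Perf r N S u c) :
    ∃ S' : Sys α β, IsCut r N m S S' u c ∧ Good r S' ∧
      Perf r (N - r * m) S' (cutu r N m u) c ∧ S'.V.card + r * m = S.V.card := by
  classical
  set L : ℕ := N - r * m with hL
  have hLN : L + r * m = N := by omega
  have hrL : r ≤ L := by omega
  set Vr : Finset α := (Finset.Ico L N).image u with hVr
  set Cr : Finset β := (Finset.Ico L N).image c with hCr
  have hVr_sub : Vr ⊆ S.V := by
    intro x hx
    obtain ⟨j, hj, rfl⟩ := Finset.mem_image.mp hx
    exact hP.u_mem j (by have := (Finset.mem_Ico.mp hj).2; omega)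
  have hCr_sub : Cr ⊆ S.C := by
    intro x hx
    obtain ⟨j, hj, rfl⟩ := Finset.mem_image.mp hx
    exact hP.c_mem j (Finset.mem_Ico.mp hj).2
  have hVr_card : Vr.card = r * m := by
    rw [hVr, Finset.card_image_of_injOn, Nat.card_Ico]
    · omega
    · intro i hi j hj hij
      rw [Finset.mem_coe, Finset.mem_Ico] at hi hj
      exact hP.u_inj i (by omega) j (by omega) hij
  have hCr_card : Cr.card = r * m := by
    rw [hCr, Finset.card_image_of_injOn, Nat.card_Ico]
    · omega
    · intro i hi j hj hij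
      rw [Finset.mem_coe, Finset.mem_Ico] at hi hj
      exact hP.c_inj i (by omega) j (by omega) hij
  set Ef : β → Finset (Sym2 α) := fun a =>
    if h : ∃ j, j < L ∧ a = c j then
      (Finset.Icc 1 r).image (fun t => s(u h.choose, cutu r N m u (h.choose + t)))
    else S.E a with hEf
  have hEf_in : ∀ j < L, Ef (c j) = (Finset.Icc 1 r).image
      (fun t => s(u j, cutu r N m u (j + t))) := by
    intro j hj
    have h : ∃ j', j' < L ∧ c j = c j' := ⟨j, hj, rfl⟩
    have h1 : h.choose = j := by
      have h2 := h.choose_spec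
      exact (hP.c_inj j (by omega) h.choose (by have := h2.1; omega) h2.2).symm
    rw [hEf]
    simp only
    rw [dif_pos h, h1]
  have hEf_ne : ∀ a, (∀ j < L, a ≠ c j) → Ef a = S.E a := by
    intro a ha
    rw [hEf]
    simp only
    rw [dif_neg]
    rintro ⟨j, hj, he⟩
    exact ha j hj he
  have hV : ∀ x, x ∈ S.V \ Vr ↔ x ∈ S.V ∧ ∀ j, L ≤ j → j < N → x ≠ u j := by
    intro x
    rw [Finset.mem_sdiff]
    constructor
    · rintro ⟨h1, h2⟩
      refine ⟨h1, ?_⟩
      rintro j hj1 hj2 rfl
      exact h2 (Finset.mem_image_of_mem _ (Finset.mem_Ico.mpr ⟨hj1, hj2⟩))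
    · rintro ⟨h1, h2⟩
      refine ⟨h1, ?_⟩
      intro h3
      obtain ⟨j, hj, he⟩ := Finset.mem_image.mp h3
      rw [Finset.mem_Ico] at hj
      exact h2 j hj.1 hj.2 he.symm
  have hC : ∀ a, a ∈ S.C \ Cr ↔ a ∈ S.C ∧ ∀ j, L ≤ j → j < N → a ≠ c j := by
    intro x
    rw [Finset.mem_sdiff]
    constructor
    · rintro ⟨h1, h2⟩
      refine ⟨h1, ?_⟩
      rintro j hj1 hj2 rfl
      exact h2 (Finset.mem_image_of_mem _ (Finset.mem_Ico.mpr ⟨hj1, hj2⟩))
    · rintro ⟨h1, h2⟩
      refine ⟨h1, ?_⟩
      intro h3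
      obtain ⟨j, hj, he⟩ := Finset.mem_image.mp h3
      rw [Finset.mem_Ico] at hj
      exact h2 j hj.1 hj.2 he.symm
  have hcut_mem : ∀ j < L + r, cutu r N m u j ∈ S.V \ Vr := by
    intro j hj
    rw [hV, ELa_cutu]
    refine ⟨hP.u_mem _ (ELa_sig_lt r N m hN j hj), ?_⟩
    intro i hi1 hi2 he
    have := hP.u_inj _ (ELa_sig_lt r N m hN j hj) i (by omega) he
    rcases ELa_sig_not r N m hN j with h | h <;> omega
  have hcE : ∀ a ∈ S.C \ Cr, (∀ j < L, a ≠ c j) → ∀ j < N, a ≠ c j := by
    intro a ha h j hj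
    by_cases hjL : j < L
    · exact h j hjL
    · exact ((hC a).mp ha).2 j (by omega) hj
  refine ⟨⟨S.V \ Vr, S.C \ Cr, Ef⟩, ?_, ?_, ?_, ?_⟩
  · exact
      { V_iff := hV
        C_iff := hC
        E_ne := fun a ha => hEf_ne a (fun j hj => ha j (by omega))
        E_in := by
          intro j hj e
          show e ∈ Ef (c j) ↔ _
          rw [hEf_in j hj, Finset.mem_image]
          constructor
          · rintro ⟨t, ht, rfl⟩
            rw [Finset.mem_Icc] at ht
            exact ⟨t, ht.1, ht.2, rfl⟩
          · rintro ⟨t, h1, h2, rfl⟩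
            exact ⟨t, Finset.mem_Icc.mpr ⟨h1, h2⟩, rfl⟩ }
  · refine ⟨?_, ?_⟩
    · show (S.C \ Cr).card = (S.V \ Vr).card
      rw [Finset.card_sdiff_of_subset hVr_sub, Finset.card_sdiff_of_subset hCr_sub, hVr_card,
        hCr_card, hG.1]
    · intro a ha
      change a ∈ S.C \ Cr at ha
      show (Ef a).card = r ∧ ∀ e ∈ Ef a, ¬ e.IsDiag ∧ ∀ x ∈ e, x ∈ S.V \ Vr
      by_cases h : ∃ j < L, a = c j
      · obtain ⟨j, hj, rfl⟩ := h
        rw [hEf_in j hj]
        have hjc : u j = cutu r N m u j := (ELa_cutu_lt r N m u j hj).symm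
        constructor
        · rw [Finset.card_image_of_injOn, Nat.card_Icc]
          · omega
          · intro t ht t' ht' he
            rw [Finset.mem_coe, Finset.mem_Icc] at ht ht'
            simp only at he
            rw [hjc, Sym2.eq_iff] at he
            rcases he with ⟨_, he⟩ | ⟨he, _⟩
            · have := ELa_cutu_inj r N m hN S u c hP _ _ (by omega) (by omega) he
              omega
            · have := ELa_cutu_inj r N m hN S u c hP _ _ (by omega) (by omega) he
              omega
        · intro e he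
          obtain ⟨t, ht, rfl⟩ := Finset.mem_image.mp he
          rw [Finset.mem_Icc] at ht
          constructor
          · rw [Sym2.mk_isDiag_iff, hjc]
            intro he
            have := ELa_cutu_inj r N m hN S u c hP _ _ (by omega) (by omega) he
            omega
          · intro x hx
            rw [Sym2.mem_iff] at hx
            rcases hx with rfl | rfl
            · rw [hjc]; exact hcut_mem j (by omega)
            · exact hcut_mem _ (by omega)
      · have h' : ∀ j < L, a ≠ c j := fun j hj he => h ⟨j, hj, he⟩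
        rw [hEf_ne a h']
        have haC : a ∈ S.C := (Finset.mem_sdiff.mp ha).1
        obtain ⟨h1, h2⟩ := hG.2 a haC
        refine ⟨h1, ?_⟩
        intro e he
        obtain ⟨h3, h4⟩ := h2 e he
        refine ⟨h3, ?_⟩
        intro x hx
        rw [hV]
        refine ⟨h4 x hx, ?_⟩
        rintro j hj1 hj2 rfl
        exact hP.clean a haC (hcE a ha h') e he j (by omega) hj2 hx
  · exact
      { u_mem := hcut_mem
        u_inj := fun j hj j' hj' h => ELa_cutu_inj r N m hN S u c hP j j' hj hj' h
        c_mem := by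
          intro j hj
          show c j ∈ S.C \ Cr
          rw [hC]
          refine ⟨hP.c_mem j (by omega), ?_⟩
          intro j' hj1 hj2 he
          have := hP.c_inj j (by omega) j' hj2 he
          omega
        c_inj := fun j hj j' hj' h => hP.c_inj j (by omega) j' (by omega) h
        c_E := by
          intro j hj e
          show e ∈ Ef (c j) ↔ _
          rw [hEf_in j hj, Finset.mem_image, ELa_cutu_lt r N m u j hj]
          constructor
          · rintro ⟨t, ht, rfl⟩
            rw [Finset.mem_Icc] at ht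
            exact ⟨t, ht.1, ht.2, rfl⟩
          · rintro ⟨t, h1, h2, rfl⟩
            exact ⟨t, Finset.mem_Icc.mpr ⟨h1, h2⟩, rfl⟩
        clean := by
          intro a ha h e he j hj1 hj2
          change a ∈ S.C \ Cr at ha
          change e ∈ Ef a at he
          rw [hEf_ne a h] at he
          rw [ELa_cutu_lt r N m u j hj2]
          exact hP.clean a (Finset.mem_sdiff.mp ha).1 (hcE a ha h) e he j hj1 (by omega) }
  · show (S.V \ Vr).card + r * m = S.V.card
    rw [Finset.card_sdiff_of_subset hVr_sub, hVr_card]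
    have := Finset.card_le_card hVr_sub
    omega

end Pool.Agent.helper19.AR
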