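import Pool.Agent.helper36.AR.ELcp
import Pool.Agent.helper36.AR.ELa

/-! Module EL (the cut system is sparse) of the AR project. -/

set_option autoImplicit false

namespace Pool.Agent.helper19.AR

theorem EL_mem_col {α β : Type} (S : Sys α β) (A : Finset α) (a : β) :
    a ∈ col S A ↔ a ∈ S.C ∧ ∃ e ∈ S.E a, ∀ x ∈ e, x ∈ A := by
  classical
  unfold col
  rw [Finset.mem_filter]

theorem EL_lower {α β : Type} [DecidableEq β] (r N : ℕ) (S : Sys α β)
    (u : ℕ → α) (c : ℕ → β) (hP : Perf r N S u c) (B1 : Finset α) (F : Finset β)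
    (hF : ∀ a ∈ F, a ∈ col S B1 ∧ ∀ j < N, a ≠ c j) (I : Finset ℕ)
    (hI : ∀ i ∈ I, i < N ∧ c i ∈ col S B1) : F.card + I.card ≤ (col S B1).card := by
  have h1 : (I.image c).card = I.card := by
    apply Finset.card_image_of_injOn
    intro i hi j hj h
    exact hP.c_inj i (hI i hi).1 j (hI j hj).1 h
  have h2 : Disjoint F (I.image c) := by
    rw [Finset.disjoint_left]
    intro a ha ha'
    obtain ⟨i, hi, rfl⟩ := Finset.mem_image.mp ha'
    exact (hF _ ha).2 i (hI i hi).1 rfl
  rw [← h1, ← Finset.card_union_of_disjoint h2]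
  apply Finset.card_le_card
  intro a ha
  rw [Finset.mem_union] at ha
  rcases ha with ha | ha
  · exact (hF a ha).1
  · obtain ⟨i, hi, rfl⟩ := Finset.mem_image.mp ha
    exact (hI i hi).2

theorem EL_alive {α β : Type} (r N : ℕ) (S : Sys α β) (u : ℕ → α) (c : ℕ → β)
    (hP : Perf r N S u c) (B1 : Finset α) (j t : ℕ) (hj : j < N) (h1 : 1 ≤ t) (h2 : t ≤ r)
    (hj1 : u j ∈ B1) (hj2 : u (j + t) ∈ B1) : c j ∈ col S B1 := by
  rw [EL_mem_col]
  refine ⟨hP.c_mem j hj, s(u j, u (j + t)), ?_, ?_⟩
  · rw [hP.c_E j hj]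
    exact ⟨t, h1, h2, rfl⟩
  · intro x hx
    rw [Sym2.mem_iff] at hx
    rcases hx with rfl | rfl
    · exact hj1
    · exact hj2

/-- module EL -/
theorem EL {α β : Type} [DecidableEq α] [DecidableEq β] (r N m ℓ : ℕ) (hr : 2 ≤ r)
    (hm : 1 ≤ m) (hN : r + r * m ≤ N) (S S' : Sys α β) (u : ℕ → α) (c : ℕ → β) (hG : Good r S)
    (hP : Perf r N S u c) (hC : IsCut r N m S S' u c) (hS : Sparse S ℓ) :
    Sparse S' (ℓ - m) := by
  classical
  intro B hB hne hcard
  by_contra hcon
  push Not at hcon
  set L : ℕ := N - r * m with hL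
  have hrm : 1 ≤ r * m := Nat.mul_pos (by omega) hm
  have hrm' : r ≤ r * m := Nat.le_mul_of_pos_right r hm
  have hLN : L + r * m = N := by omega
  have hrL : r ≤ L := by omega
  have hBS : B ⊆ S.V := fun x hx => ((hC.V_iff x).mp (hB hx)).1
  have hBu : ∀ j, L ≤ j → j < N → u j ∉ B := fun j h1 h2 h =>
    ((hC.V_iff _).mp (hB h)).2 j h1 h2 rfl
  set J : Finset ℕ := (Finset.range L).filter (fun j => u j ∈ B) with hJ
  have hJmem : ∀ j, j ∈ J ↔ j < L ∧ u j ∈ B := fun j => by
    rw [hJ, Finset.mem_filter, Finset.mem_range]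
  set Jr : Finset ℕ := J.filter (fun j => r ≤ j) with hJr
  set J0 : Finset ℕ := J.filter (fun j => ¬ r ≤ j) with hJ0
  have hJrmem : ∀ j, j ∈ Jr ↔ r ≤ j ∧ j < L ∧ u j ∈ B := fun j => by
    rw [hJr, Finset.mem_filter, hJmem]; tauto
  have hJ0mem : ∀ j, j ∈ J0 ↔ j < r ∧ u j ∈ B := fun j => by
    rw [hJ0, Finset.mem_filter, hJmem]
    constructor
    · rintro ⟨⟨h1, h2⟩, h3⟩; exact ⟨by omega, h2⟩
    · rintro ⟨h1, h2⟩; exact ⟨⟨by omega, h2⟩, by omega⟩
  have hJcard : Jr.card + J0.card = J.card := by
    rw [hJr, hJ0]; exact Finset.card_filter_add_card_filter_not _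
  set B0 : Finset α := B \ Jr.image u with hB0
  have hJrsub : Jr.image u ⊆ B := by
    intro x hx
    obtain ⟨j, hj, rfl⟩ := Finset.mem_image.mp hx
    exact ((hJrmem j).mp hj).2.2
  have hJrimg : (Jr.image u).card = Jr.card := by
    apply Finset.card_image_of_injOn
    intro i hi j hj h
    have h1 := (hJrmem i).mp hi
    have h2 := (hJrmem j).mp hj
    exact hP.u_inj i (by omega) j (by omega) h
  have hB0card : B0.card + Jr.card = B.card := by
    rw [hB0, Finset.card_sdiff_of_subset hJrsub, hJrimg]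
    have := Finset.card_le_card hJrsub
    rw [hJrimg] at this
    omega
  -- elements of `B` which are not `u j`, `r ≤ j < L`, are in `B0`
  have hmemB0 : ∀ x ∈ B, (∀ j, r ≤ j → j < L → x ≠ u j) → x ∈ B0 := by
    intro x hx h
    rw [hB0, Finset.mem_sdiff]
    refine ⟨hx, ?_⟩
    intro h'
    obtain ⟨j, hj, he⟩ := Finset.mem_image.mp h'
    have := (hJrmem j).mp hj
    exact h j this.1 this.2.1 he.symm
  have hB0u : ∀ j, j < N + r → (j < r ∨ N ≤ j) → u j ∈ B → u j ∈ B0 := by
    intro j hj1 hj2 hj3
    apply hmemB0 _ hj3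
    intro i hi1 hi2 he
    have := hP.u_inj j hj1 i (by omega) he
    omega
  set F : Finset β := (col S' B).filter (fun a => ∀ j < N, a ≠ c j) with hF
  have hFcol : ∀ a ∈ F, (∀ j < N, a ≠ c j) ∧ a ∈ S.C ∧ ∃ e ∈ S.E a, ∀ x ∈ e, x ∈ B0 := by
    intro a ha
    rw [hF, Finset.mem_filter, EL_mem_col] at ha
    obtain ⟨⟨h1, e, he, h2⟩, h3⟩ := ha
    have haC : a ∈ S.C := ((hC.C_iff a).mp h1).1
    rw [hC.E_ne a h3] at he
    refine ⟨h3, haC, e, he, ?_⟩
    intro x hx
    apply hmemB0 x (h2 x hx)
    rintro j hj1 hj2 rfl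
    exact hP.clean a haC h3 e he j hj1 (by omega) hx
  set Ja : Finset ℕ := J.filter (fun j => c j ∈ col S' B) with hJa
  -- an alive strand colour
  have halive : ∀ j < L, c j ∈ col S' B → j ∈ J ∧
      ∃ t, 1 ≤ t ∧ t ≤ r ∧ (j + t ∈ J ∨ (L ≤ j + t ∧ j + t - L < r ∧ u (N + (j + t - L)) ∈ B)) := by
    intro j hj hc
    rw [EL_mem_col] at hc
    obtain ⟨_, e, he, h2⟩ := hc
    rw [hC.E_in j hj] at he
    obtain ⟨t, ht1, ht2, rfl⟩ := he
    have h3 := h2 _ (Sym2.mem_mk_left _ _)
    have h4 := h2 _ (Sym2.mem_mk_right _ _)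
    refine ⟨(hJmem j).mpr ⟨hj, h3⟩, t, ht1, ht2, ?_⟩
    unfold cutu at h4
    by_cases hjt : j + t < L
    · rw [if_pos hjt] at h4
      exact Or.inl ((hJmem _).mpr ⟨hjt, h4⟩)
    · rw [if_neg hjt] at h4
      right
      refine ⟨by omega, by omega, ?_⟩
      have : N + (j + t - L) = j + t + r * m := by omega
      rw [this]; exact h4
  have hupper : (col S' B).card ≤ F.card + Ja.card := by
    have hsub : col S' B ⊆ F ∪ Ja.image c := by
      intro a ha
      rw [Finset.mem_union]
      by_cases h : ∀ j < N, a ≠ c j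
      · left
        rw [hF, Finset.mem_filter]
        exact ⟨ha, h⟩
      · right
        push Not at h
        obtain ⟨j, hj, rfl⟩ := h
        have hjL : j < L := by
          by_contra hjL
          rw [EL_mem_col] at ha
          exact ((hC.C_iff _).mp ha.1).2 j (by omega) hj rfl
        apply Finset.mem_image_of_mem
        rw [hJa, Finset.mem_filter]
        exact ⟨(halive j hjL ha).1, ha⟩
    calc (col S' B).card ≤ (F ∪ Ja.image c).card := Finset.card_le_card hsub
      _ ≤ F.card + (Ja.image c).card := Finset.card_union_le _ _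
      _ ≤ F.card + Ja.card := Nat.add_le_add_left Finset.card_image_le _
  have hJaJ : Ja ⊆ J := Finset.filter_subset _ _
  have hB0V : B0 ⊆ S.V := fun x hx => hBS (Finset.mem_sdiff.mp hx).1
  have hB0B : B0 ⊆ B := Finset.sdiff_subset
  have hF1 : ∀ B1 : Finset α, B0 ⊆ B1 → ∀ a ∈ F, a ∈ col S B1 ∧ ∀ j < N, a ≠ c j := by
    intro B1 hB1 a ha
    obtain ⟨h1, h2, e, he, h3⟩ := hFcol a ha
    refine ⟨?_, h1⟩
    rw [EL_mem_col]
    exact ⟨h2, e, he, fun x hx => hB1 (h3 x hx)⟩
  rcases J0.eq_empty_or_nonempty with hJ0e | hJ0ne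
  · -- case (iii)
    have hJJr : J.card = Jr.card := by rw [← hJcard, hJ0e, Finset.card_empty, Nat.add_zero]
    have hJa_le := Finset.card_le_card hJaJ
    rcases B0.eq_empty_or_nonempty with hB0e | hB0ne
    · -- `B` consists of strand vertices only
      have hFe : F.card = 0 := by
        rw [Finset.card_eq_zero, Finset.eq_empty_iff_forall_notMem]
        intro a ha
        obtain ⟨_, _, e, _, h3⟩ := hFcol a ha
        rw [hB0e] at h3
        induction e using Sym2.ind with
        | _ x y => exact absurd (h3 x (Sym2.mem_mk_left _ _)) (Finset.notMem_empty _)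
      have hJne : J.Nonempty := by
        rw [← Finset.card_pos]
        have := Finset.card_pos.mpr hne
        have h0 : B0.card = 0 := by rw [hB0e]; rfl
        omega
      set x := J.max' hJne with hx
      have hxJ : x ∈ J := Finset.max'_mem _ _
      have hxa : x ∉ Ja := by
        intro hxa
        rw [hJa, Finset.mem_filter] at hxa
        obtain ⟨_, t, ht1, ht2, h⟩ := halive x ((hJmem x).mp hxJ).1 hxa.2
        rcases h with h | ⟨h1, h2, h3⟩
        · have := Finset.le_max' J _ h
          omega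
        · have := hB0u (N + (x + t - L)) (by omega) (Or.inr (by omega)) h3
          rw [hB0e] at this
          exact Finset.notMem_empty _ this
      have hlt : Ja.card < J.card :=
        Finset.card_lt_card ⟨hJaJ, fun h => hxa (h hxJ)⟩
      have h0 : B0.card = 0 := by rw [hB0e]; rfl
      omega
    · have h1 := hS B0 hB0V hB0ne (by have := Finset.card_le_card hB0B; omega)
      have h2 := EL_lower r N S u c hP B0 F (hF1 B0 (Finset.Subset.refl _)) ∅ (by simp)
      rw [Finset.card_empty] at h2
      omega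
  · set x := J0.max' hJ0ne with hx
    have hxJ0 : x ∈ J0 := Finset.max'_mem _ _
    have hxr : x < r := ((hJ0mem x).mp hxJ0).1
    have hxB : u x ∈ B := ((hJ0mem x).mp hxJ0).2
    have hxB0 : u x ∈ B0 := hB0u x (by omega) (Or.inl hxr) hxB
    have hJ0al : ∀ B1 : Finset α, B0 ⊆ B1 → ∀ i ∈ J0.erase x, i < N ∧ c i ∈ col S B1 := by
      intro B1 hB1 i hi
      have hi1 := Finset.mem_erase.mp hi
      have hi2 := (hJ0mem i).mp hi1.2
      have hi3 : i ≤ x := Finset.le_max' J0 i hi1.2
      have hi4 : i < x := lt_of_le_of_ne hi3 hi1.1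
      refine ⟨by omega, ?_⟩
      apply EL_alive r N S u c hP B1 i (x - i) (by omega) (by omega) (by omega)
      · exact hB1 (hB0u i (by omega) (Or.inl hi2.1) hi2.2)
      · have : i + (x - i) = x := by omega
        rw [this]
        exact hB1 hxB0
    by_cases hall : ∀ j ∈ J, j ∈ Ja
    · -- case (i)
      have hchain := ELc r L J ((Finset.range r).filter (fun τ => u (N + τ) ∈ B))
        (Finset.filter_subset _ _) (by
          intro j hj
          have hj' := hall j hj
          rw [hJa, Finset.mem_filter] at hj'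
          obtain ⟨_, t, ht1, ht2, h⟩ := halive j ((hJmem j).mp hj).1 hj'.2
          refine ⟨t, ht1, ht2, ?_⟩
          rcases h with h | ⟨h1, h2, h3⟩
          · exact Or.inl h
          · right
            refine ⟨h1, ?_⟩
            rw [Finset.mem_filter, Finset.mem_range]
            exact ⟨h2, h3⟩)
      have hxJ : x ∈ J := (hJmem x).mpr ⟨by omega, hxB⟩
      obtain ⟨τ, hτY, hτr, hτ⟩ := hchain x hxJ
      have hτB : u (N + τ) ∈ B := (Finset.mem_filter.mp hτY).2
      have hτB0 : u (N + τ) ∈ B0 := hB0u _ (by omega) (Or.inr (by omega)) hτB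
      have hfil : (J.filter fun z => x ≤ z).card ≤ Jr.card + 1 := by
        rw [← Finset.card_insert_of_notMem (s := Jr) (a := x)
          (by rw [hJrmem]; omega)]
        apply Finset.card_le_card
        intro z hz
        rw [Finset.mem_filter] at hz
        rw [Finset.mem_insert, hJrmem]
        have hz1 := (hJmem z).mp hz.1
        by_cases hzr : r ≤ z
        · exact Or.inr ⟨hzr, hz1⟩
        · left
          have : z ∈ J0 := (hJ0mem z).mpr ⟨by omega, hz1.2⟩
          have := Finset.le_max' J0 z this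
          omega
      obtain ⟨W, hW1, hW2, hW3⟩ := ELp r N x τ (by omega) (by omega) hxr hτr
      have hWcard : W.card ≤ Jr.card + m := by
        have h1 := Nat.mul_le_mul_left r hfil
        have h2 : r * W.card < r * (Jr.card + m + 1) := by
          have e1 : r * (Jr.card + 1) = r * Jr.card + r := by ring
          have e2 : r * (Jr.card + m + 1) = r * Jr.card + r * m + r := by ring
          omega
        have h3 := Nat.lt_of_mul_lt_mul_left h2
        omega
      have hWu : ∀ w ∈ W, u w ∉ B0 := by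
        intro w hw hwB
        have hw1 := Finset.mem_Ico.mp (hW1 hw)
        by_cases hwL : w < L
        · have hwJr : w ∈ Jr := (hJrmem w).mpr ⟨hw1.1, hwL, hB0B hwB⟩
          rw [hB0, Finset.mem_sdiff] at hwB
          exact hwB.2 (Finset.mem_image_of_mem _ hwJr)
        · exact hBu w (by omega) hw1.2 (hB0B hwB)
      set B1 : Finset α := B0 ∪ W.image u with hB1
      have hB01 : B0 ⊆ B1 := Finset.subset_union_left
      have hWB1 : ∀ w ∈ W, u w ∈ B1 := fun w hw =>
        Finset.mem_union_right _ (Finset.mem_image_of_mem _ hw)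
      have hB1card : B1.card = B0.card + W.card := by
        rw [hB1, Finset.card_union_of_disjoint, Finset.card_image_of_injOn]
        · intro i hi j hj h
          have h1 := Finset.mem_Ico.mp (hW1 hi)
          have h2 := Finset.mem_Ico.mp (hW1 hj)
          exact hP.u_inj i (by omega) j (by omega) h
        · rw [Finset.disjoint_left]
          intro y hy hy'
          obtain ⟨w, hw, rfl⟩ := Finset.mem_image.mp hy'
          exact hWu w hw hy
      have hB1V : B1 ⊆ S.V := by
        intro y hy
        rw [hB1, Finset.mem_union] at hy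
        rcases hy with hy | hy
        · exact hB0V hy
        · obtain ⟨w, hw, rfl⟩ := Finset.mem_image.mp hy
          have h1 := Finset.mem_Ico.mp (hW1 hw)
          exact hP.u_mem w (by omega)
      have h1 := hS B1 hB1V ⟨u x, hB01 hxB0⟩ (by
        have := Finset.card_pos.mpr hne
        omega)
      -- the alive indices
      have hstep : ∀ z ∈ insert x W, z < N ∧ c z ∈ col S B1 := by
        intro z hz
        obtain ⟨t, ht1, ht2, ht⟩ := hW3 z hz
        have hzB : z < N ∧ u z ∈ B1 := by
          rw [Finset.mem_insert] at hz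
          rcases hz with rfl | hz
          · exact ⟨by omega, hB01 hxB0⟩
          · exact ⟨(Finset.mem_Ico.mp (hW1 hz)).2, hWB1 z hz⟩
        refine ⟨hzB.1, ?_⟩
        apply EL_alive r N S u c hP B1 z t hzB.1 ht1 ht2 hzB.2
        rcases ht with ht | ht
        · exact hWB1 _ ht
        · rw [ht]; exact hB01 hτB0
      have hI : ∀ i ∈ J0 ∪ W, i < N ∧ c i ∈ col S B1 := by
        intro i hi
        rw [Finset.mem_union] at hi
        rcases hi with hi | hi
        · by_cases hix : i = x
          · exact hstep i (by rw [hix]; exact Finset.mem_insert_self _ _)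
          · exact hJ0al B1 hB01 i (Finset.mem_erase.mpr ⟨hix, hi⟩)
        · exact hstep i (Finset.mem_insert_of_mem hi)
      have h2 := EL_lower r N S u c hP B1 F (hF1 B1 hB01) (J0 ∪ W) hI
      have h3 : (J0 ∪ W).card = J0.card + W.card := by
        apply Finset.card_union_of_disjoint
        rw [Finset.disjoint_left]
        intro i hi hi'
        have a1 := ((hJ0mem i).mp hi).1
        have a2 := (Finset.mem_Ico.mp (hW1 hi')).1
        omega
      have h4 := Finset.card_le_card hJaJ
      omega
    · -- case (ii)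
      push Not at hall
      obtain ⟨j, hj, hja⟩ := hall
      have hlt : Ja.card < J.card :=
        Finset.card_lt_card ⟨hJaJ, fun h => hja (h hj)⟩
      have h1 := hS B0 hB0V ⟨u x, hxB0⟩ (by have := Finset.card_le_card hB0B; omega)
      have h2 := EL_lower r N S u c hP B0 F (hF1 B0 (Finset.Subset.refl _)) (J0.erase x)
        (hJ0al B0 (Finset.Subset.refl _))
      rw [Finset.card_erase_of_mem hxJ0] at h2
      omega

end Pool.Agent.helper19.AR
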