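import Pool.Agent.helper19.AR.Defs2

/-! Modules ELc and ELp (chain lemma, path lemma) of the AR project. -/

set_option autoImplicit false

namespace Pool.Agent.helper19.AR

/-- module ELc: chain lemma -/
theorem ELc (r N : ℕ) (S Y : Finset ℕ) (hS : S ⊆ Finset.range N)
    (h : ∀ x ∈ S, ∃ t, 1 ≤ t ∧ t ≤ r ∧ (x + t ∈ S ∨ (N ≤ x + t ∧ x + t - N ∈ Y))) :
    ∀ x ∈ S, ∃ τ ∈ Y, τ < r ∧ N + τ ≤ x + r * (S.filter fun z => x ≤ z).card := by
  have key : ∀ n x, x ∈ S → N - x = n →
      ∃ τ ∈ Y, τ < r ∧ N + τ ≤ x + r * (S.filter fun z => x ≤ z).card := by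
    intro n
    induction n using Nat.strong_induction_on with
    | _ n ih =>
      intro x hx hn
      have hxN : x < N := Finset.mem_range.mp (hS hx)
      obtain ⟨t, ht1, htr, ht⟩ := h x hx
      rcases ht with ht | ⟨htN, htY⟩
      · have hxt : x + t < N := Finset.mem_range.mp (hS ht)
        obtain ⟨τ, hτY, hτr, hτ⟩ := ih (N - (x + t)) (by omega) (x + t) ht rfl
        refine ⟨τ, hτY, hτr, ?_⟩
        have hcard : (S.filter fun z => x + t ≤ z).card + 1 ≤ (S.filter fun z => x ≤ z).card := by
          rw [← Finset.card_insert_of_notMem (s := S.filter fun z => x + t ≤ z) (a := x)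
            (by simp; intro _; omega)]
          apply Finset.card_le_card
          intro z hz
          rw [Finset.mem_insert, Finset.mem_filter] at hz
          rw [Finset.mem_filter]
          rcases hz with rfl | ⟨hz1, hz2⟩
          · exact ⟨hx, le_refl _⟩
          · exact ⟨hz1, by omega⟩
        have := Nat.mul_le_mul_left r hcard
        rw [Nat.mul_add, Nat.mul_one] at this
        omega
      · refine ⟨x + t - N, htY, by omega, ?_⟩
        have hcard : 1 ≤ (S.filter fun z => x ≤ z).card :=
          Finset.card_pos.mpr ⟨x, Finset.mem_filter.mpr ⟨hx, le_refl _⟩⟩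
        have := Nat.mul_le_mul_left r hcard
        rw [Nat.mul_one] at this
        omega
  intro x hx
  exact key _ x hx rfl

theorem ELp_aux (r x : ℕ) (hx : x < r) : ∀ y, x < y →
    ∃ W : Finset ℕ, (∀ w ∈ W, r ≤ w ∧ w < y ∧ w ≤ max r (y - r)) ∧ r * W.card + x < y ∧
      ∀ z ∈ insert x W, ∃ t, 1 ≤ t ∧ t ≤ r ∧ (z + t ∈ W ∨ z + t = y) := by
  intro y
  induction y using Nat.strong_induction_on with
  | _ y ih =>
    intro hxy
    by_cases hyr : y ≤ x + r
    · refine ⟨∅, by simp, by simpa using hxy, ?_⟩
      intro z hz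
      simp only [Finset.mem_insert, Finset.notMem_empty, or_false] at hz
      subst hz
      exact ⟨y - z, by omega, by omega, Or.inr (by omega)⟩
    · push Not at hyr
      set y' := max r (y - r) with hy'
      have h1 : x < y' := by omega
      have h2 : y' < y := by omega
      have h3 : y ≤ y' + r := by omega
      obtain ⟨W', hW', hc, hz⟩ := ih y' h2 h1
      have hnot : y' ∉ W' := fun h => lt_irrefl _ (hW' y' h).2.1
      refine ⟨insert y' W', ?_, ?_, ?_⟩
      · intro w hw
        rw [Finset.mem_insert] at hw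
        rcases hw with rfl | hw
        · exact ⟨le_max_left _ _, h2, le_refl _⟩
        · obtain ⟨a, b, _⟩ := hW' w hw
          exact ⟨a, by omega, by omega⟩
      · rw [Finset.card_insert_of_notMem hnot, Nat.mul_add, Nat.mul_one]
        by_cases hcase : r ≤ y - r
        · have : y' = y - r := by omega
          omega
        · have h4 : y' = r := by omega
          have h5 : W'.card = 0 := by
            by_contra hne
            have : 1 ≤ W'.card := Nat.one_le_iff_ne_zero.mpr hne
            have := Nat.mul_le_mul_left r this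
            omega
          rw [h5]; omega
      · intro z hzz
        rw [Finset.mem_insert, Finset.mem_insert] at hzz
        have hcase : z = y' ∨ z ∈ insert x W' := by
          rw [Finset.mem_insert]; tauto
        rcases hcase with rfl | hz'
        · exact ⟨y - y', by omega, by omega, Or.inr (by omega)⟩
        · obtain ⟨t, a, b, hc'⟩ := hz z hz'
          refine ⟨t, a, b, Or.inl ?_⟩
          rw [Finset.mem_insert]
          tauto

/-- module ELp: path lemma -/
theorem ELp (r N x τ : ℕ) (hr : 1 ≤ r) (hN : r < N) (hx : x < r) (hτ : τ < r) :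
    ∃ W : Finset ℕ, W ⊆ Finset.Ico r N ∧ r * W.card + x < N + τ ∧
      ∀ z ∈ insert x W, ∃ t, 1 ≤ t ∧ t ≤ r ∧ (z + t ∈ W ∨ z + t = N + τ) := by
  obtain ⟨W, hW, hc, hz⟩ := ELp_aux r x hx (N + τ) (by omega)
  refine ⟨W, ?_, hc, hz⟩
  intro w hw
  obtain ⟨a, b, c⟩ := hW w hw
  rw [Finset.mem_Ico]
  exact ⟨a, by omega⟩

end Pool.Agent.helper19.AR
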